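import Pool.Agent.H8.BIG.Targets
import Pool.Agent.H20.HIT.PCV

/-!
# CLS: representatives up to proportionality
-/

set_option autoImplicit false

open MvPolynomial
open Pool.Agent.H12.ZD (pmap v O Res DenseOrbit NoInv)
open Pool.Agent.H18.HIT Pool.Agent.H8.BIG
open Pool.Agent.H20.HIT (hom_eval)

namespace Pool.Agent.H21.BIG

theorem pf_CLS : T_CLS := by
  classical
  intro N k _ T D y S hD hT hy hS
  induction S using Finset.strongInduction with
  | H S ih =>
    rcases S.eq_empty_or_nonempty with h0 | ⟨x₀, hx₀⟩
    · refine ⟨∅, Finset.empty_subset _, by simp, ?_⟩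
      rw [h0]
      simp
    have hsub : S.filter (fun x => ¬ Prop2 x₀ x) ⊂ S := by
      refine Finset.filter_ssubset.2 ⟨x₀, hx₀, ?_⟩
      intro h
      exact h fun s t => mul_comm _ _
    obtain ⟨S', hS', hn, hc⟩ := ih _ hsub fun x hx => hS x (Finset.mem_filter.1 hx).1
    have hx0 : x₀ ≠ 0 := by
      intro h0
      apply hy
      rw [← hS x₀ hx₀]
      funext i
      change eval x₀ (T i) = 0
      have h1 := hom_eval (hT i) 0 x₀
      rw [h0] at h1
      have h2 : (fun i => (0 : k) * (0 : Fin N → k) i) = (0 : Fin N → k) := by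
        funext i
        simp
      rw [h2, zero_pow (by omega), zero_mul] at h1
      rw [h0]
      exact h1
    obtain ⟨s₀, hs₀⟩ := Function.ne_iff.1 hx0
    have hs₀' : x₀ s₀ ≠ 0 := hs₀
    obtain ⟨i₀, hi₀⟩ := Function.ne_iff.1 hy
    have hi₀' : y i₀ ≠ 0 := hi₀
    have hP : (S.filter (fun x => Prop2 x₀ x)).card ≤ D := by
      have h1 : S.filter (fun x => Prop2 x₀ x) ⊆
          ((Polynomial.nthRoots D (1 : k)).toFinset).image fun c => fun i => c * x₀ i := by
        intro x hx
        obtain ⟨hxS, hxp⟩ := Finset.mem_filter.1 hx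
        have e1 : x = fun i => x s₀ / x₀ s₀ * x₀ i := by
          funext t
          have h2 := hxp s₀ t
          rw [div_mul_eq_mul_div, eq_div_iff hs₀', mul_comm (x t), h2, mul_comm]
        refine Finset.mem_image.2 ⟨x s₀ / x₀ s₀, ?_, e1.symm⟩
        rw [Multiset.mem_toFinset, Polynomial.mem_nthRoots (by omega)]
        have h3 := hom_eval (hT i₀) (x s₀ / x₀ s₀) x₀
        rw [← e1] at h3
        have h4 : eval x (T i₀) = y i₀ := congrFun (hS x hxS) i₀
        have h5 : eval x₀ (T i₀) = y i₀ := congrFun (hS x₀ hx₀) i₀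
        rw [h4, h5] at h3
        exact mul_right_cancel₀ hi₀' (h3.symm.trans (one_mul _).symm)
      exact (Finset.card_le_card h1).trans (Finset.card_image_le.trans
        ((Multiset.toFinset_card_le _).trans (Polynomial.card_nthRoots D 1)))
    have hsum := Finset.card_filter_add_card_filter_not (s := S) (fun x => Prop2 x₀ x)
    have hni : x₀ ∉ S' := by
      intro h
      exact (Finset.mem_filter.1 (hS' h)).2 fun s t => mul_comm _ _
    refine ⟨insert x₀ S', ?_, ?_, ?_⟩
    · intro x hx
      rcases Finset.mem_insert.1 hx with rfl | hx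
      · exact hx₀
      · exact (Finset.mem_filter.1 (hS' hx)).1
    · intro x hx x' hx' hne
      rcases Finset.mem_insert.1 hx with h1 | hx
      · rcases Finset.mem_insert.1 hx' with h2 | hx'
        · exact absurd (h1.trans h2.symm) hne
        · rw [h1]
          exact (Finset.mem_filter.1 (hS' hx')).2
      · rcases Finset.mem_insert.1 hx' with h2 | hx'
        · rw [h2]
          intro h3
          refine (Finset.mem_filter.1 (hS' hx)).2 fun s t => ?_
          have := h3 t s
          rw [mul_comm (x₀ s), this, mul_comm]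
        · exact hn x hx x' hx' hne
    · rw [Finset.card_insert_of_notMem hni, mul_add, mul_one]
      omega

end Pool.Agent.H21.BIG
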